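import Pool.Agent.H629.CG.Stm

/-! MP_e22585_pr, project CG, task KST: Gaussian integration by parts. -/

set_option autoImplicit false

namespace Pool.Agent.H415.CG.KST

open MeasureTheory ProbabilityTheory Filter Topology Set
open scoped ENNReal NNReal
open Pool.Agent.H629.CG

/-! ## Stein's identity -/

lemma pdf_deriv (t : ℝ) : HasDerivAt (gaussianPDFReal 0 1) (-(t * gaussianPDFReal 0 1 t)) t := by
  have e : gaussianPDFReal 0 1 =
      fun t : ℝ => (√(2 * Real.pi * 1))⁻¹ * Real.exp (-(t - 0) ^ 2 / (2 * 1)) := by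
    ext t; simp [gaussianPDFReal]
  rw [e]
  have h1 : HasDerivAt (fun t : ℝ => -(t - 0) ^ 2 / (2 * 1)) (-t) t := by
    have h := ((((hasDerivAt_id t).sub_const (0 : ℝ)).pow 2).neg).div_const (2 * 1)
    refine h.congr_deriv ?_
    simp
    ring
  have h2 := (h1.exp).const_mul (√(2 * Real.pi * 1))⁻¹
  refine h2.congr_deriv ?_
  ring

lemma int_gauss_iff {f : ℝ → ℝ} :
    Integrable f (gaussianReal 0 1) ↔ Integrable (fun t => gaussianPDFReal 0 1 t * f t) := by
  rw [gaussianReal_of_var_ne_zero 0 one_ne_zero,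
    integrable_withDensity_iff_integrable_smul₀' (measurable_gaussianPDF 0 1).aemeasurable
      (ae_of_all _ fun _ => gaussianPDF_lt_top)]
  simp only [smul_eq_mul, toReal_gaussianPDF]

theorem stein1 {f f' : ℝ → ℝ} (hf : ∀ t, HasDerivAt f (f' t) t)
    (h1 : Integrable (fun t => f t * t) (gaussianReal 0 1)) (h2 : Integrable f' (gaussianReal 0 1))
    (h3 : Integrable f (gaussianReal 0 1)) :
    ∫ t, f t * t ∂(gaussianReal 0 1) = ∫ t, f' t ∂(gaussianReal 0 1) := by
  rw [integral_gaussianReal_eq_integral_smul one_ne_zero,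
    integral_gaussianReal_eq_integral_smul one_ne_zero]
  rw [int_gauss_iff] at h1 h2 h3
  have key := integral_mul_deriv_eq_deriv_mul_of_integrable (u := f) (u' := f')
    (v := fun t => -gaussianPDFReal 0 1 t) (v' := fun t => t * gaussianPDFReal 0 1 t)
    (fun t _ => hf t) (fun t _ => ((pdf_deriv t).neg).congr_deriv (by ring))
    (h1.congr (ae_of_all _ fun t => by simp only [Pi.mul_apply]; ring))
    (h2.neg.congr (ae_of_all _ fun t => by simp only [Pi.mul_apply, Pi.neg_apply]; ring))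
    (h3.neg.congr (ae_of_all _ fun t => by simp only [Pi.mul_apply, Pi.neg_apply]; ring))
  calc ∫ t, gaussianPDFReal 0 1 t • (f t * t) = ∫ t, f t * (t * gaussianPDFReal 0 1 t) := by
        refine integral_congr_ae (ae_of_all _ fun t => ?_)
        simp only [smul_eq_mul]; ring
    _ = -∫ t, f' t * -gaussianPDFReal 0 1 t := key
    _ = ∫ t, gaussianPDFReal 0 1 t • f' t := by
        rw [← integral_neg]
        refine integral_congr_ae (ae_of_all _ fun t => ?_)
        simp only [smul_eq_mul]; ring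

lemma insert_eq {n : ℕ} (i : Fin (n + 1)) (w : Fin n → ℝ) (t : ℝ) :
    (i.insertNth t w : Fin (n + 1) → ℝ) =
      (i.insertNth 0 w : Fin (n + 1) → ℝ) + t • (Pi.single i (1 : ℝ) : Fin (n + 1) → ℝ) := by
  funext j
  refine Fin.succAboveCases i ?_ (fun k => ?_) j
  · simp
  · simp [Fin.succAbove_ne]

instance (n : ℕ) : IsProbabilityMeasure (gam n) := by unfold gam; infer_instance

/-- Gaussian integration by parts, derivative along a coordinate line -/
theorem stein_n {n : ℕ} (F G : (Fin n → ℝ) → ℝ) (i : Fin n)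
    (hF : ∀ (z : Fin n → ℝ) (t : ℝ), HasDerivAt
      (fun t : ℝ => F (z + t • (Pi.single i (1 : ℝ) : Fin n → ℝ)))
      (G (z + t • (Pi.single i (1 : ℝ) : Fin n → ℝ))) t)
    (h1 : Integrable (fun z => F z * z i) (gam n)) (h2 : Integrable G (gam n))
    (h3 : Integrable F (gam n)) :
    ∫ z, F z * z i ∂gam n = ∫ z, G z ∂gam n := by
  cases n with
  | zero => exact i.elim0
  | succ n =>
    have mp : MeasurePreserving (MeasurableEquiv.piFinSuccAbove (fun _ => ℝ) i) (gam (n + 1))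
        ((gaussianReal 0 1).prod (gam n)) :=
      measurePreserving_piFinSuccAbove (fun _ : Fin (n + 1) => gaussianReal 0 1) i
    have mps := mp.symm
    set e := MeasurableEquiv.piFinSuccAbove (fun _ : Fin (n + 1) => ℝ) i with he
    have hint : ∀ G : (Fin (n + 1) → ℝ) → ℝ, Integrable G (gam (n + 1)) →
        Integrable (fun p : ℝ × (Fin n → ℝ) => G (i.insertNth p.1 p.2))
          ((gaussianReal 0 1).prod (gam n)) :=
      fun G hG => (mps.integrable_comp_emb e.symm.measurableEmbedding).2 hG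
    have hval : ∀ G : (Fin (n + 1) → ℝ) → ℝ, Integrable G (gam (n + 1)) →
        ∫ z, G z ∂gam (n + 1) = ∫ w, ∫ t, G (i.insertNth t w) ∂(gaussianReal 0 1) ∂gam n := by
      intro G hG
      rw [← mps.integral_comp e.symm.measurableEmbedding G]
      exact integral_prod_symm (fun p : ℝ × (Fin n → ℝ) => G (i.insertNth p.1 p.2)) (hint G hG)
    rw [hval _ h1, hval _ h2]
    refine integral_congr_ae ?_
    filter_upwards [(hint _ h1).prod_left_ae, (hint _ h2).prod_left_ae, (hint _ h3).prod_left_ae]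
      with w a1 a2 a3
    simp only [Fin.insertNth_apply_same] at a1 ⊢
    refine stein1 (f := fun t => F (i.insertNth t w)) (fun t => ?_) a1 a2 a3
    have e1 : (fun t : ℝ => F (i.insertNth t w)) = fun t : ℝ => F ((i.insertNth 0 w :
        Fin (n + 1) → ℝ) + t • (Pi.single i (1 : ℝ) : Fin (n + 1) → ℝ)) := by
      funext t; rw [insert_eq i w t]
    rw [e1, insert_eq i w t]
    exact hF _ t

/-! ## domination -/

/-- exponentially bounded functions -/
def Dom {N : ℕ} (g : (Fin N → ℝ) → ℝ) : Prop :=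
  ∃ C c : ℝ, 0 ≤ C ∧ 0 ≤ c ∧ ∀ z, |g z| ≤ C * Real.exp (c * ∑ k, |z k|)

lemma Dom.mul {N : ℕ} {g h : (Fin N → ℝ) → ℝ} (hg : Dom g) (hh : Dom h) :
    Dom (fun z => g z * h z) := by
  obtain ⟨C, c, hC, hc, H⟩ := hg
  obtain ⟨D, d, hD, hd, K⟩ := hh
  refine ⟨C * D, c + d, by positivity, by positivity, fun z => ?_⟩
  rw [abs_mul, add_mul, Real.exp_add]
  calc |g z| * |h z| ≤ (C * Real.exp (c * ∑ k, |z k|)) * (D * Real.exp (d * ∑ k, |z k|)) :=
        mul_le_mul (H z) (K z) (abs_nonneg _) (by positivity)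
    _ = _ := by ring

lemma Dom.add {N : ℕ} {g h : (Fin N → ℝ) → ℝ} (hg : Dom g) (hh : Dom h) :
    Dom (fun z => g z + h z) := by
  obtain ⟨C, c, hC, hc, H⟩ := hg
  obtain ⟨D, d, hD, hd, K⟩ := hh
  refine ⟨C + D, c + d, by positivity, by positivity, fun z => ?_⟩
  have hs : 0 ≤ ∑ k, |z k| := Finset.sum_nonneg fun k _ => abs_nonneg _
  have e1 : Real.exp (c * ∑ k, |z k|) ≤ Real.exp ((c + d) * ∑ k, |z k|) := by
    apply Real.exp_le_exp.2
    nlinarith
  have e2 : Real.exp (d * ∑ k, |z k|) ≤ Real.exp ((c + d) * ∑ k, |z k|) := by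
    apply Real.exp_le_exp.2
    nlinarith
  calc |g z + h z| ≤ |g z| + |h z| := abs_add_le _ _
    _ ≤ C * Real.exp ((c + d) * ∑ k, |z k|) + D * Real.exp ((c + d) * ∑ k, |z k|) :=
        add_le_add ((H z).trans (mul_le_mul_of_nonneg_left e1 hC))
          ((K z).trans (mul_le_mul_of_nonneg_left e2 hD))
    _ = _ := by ring

lemma Dom.const {N : ℕ} (a : ℝ) : Dom (fun _ : Fin N → ℝ => a) :=
  ⟨|a|, 0, abs_nonneg a, le_rfl, fun z => by simp⟩

lemma Dom.coord {N : ℕ} (k : Fin N) : Dom (fun z : Fin N → ℝ => z k) := by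
  refine ⟨1, 1, zero_le_one, zero_le_one, fun z => ?_⟩
  have h1 : |z k| ≤ ∑ k, |z k| := Finset.single_le_sum (f := fun k => |z k|)
    (fun k _ => abs_nonneg _) (Finset.mem_univ k)
  have h2 := Real.add_one_le_exp (∑ k, |z k|)
  rw [one_mul, one_mul]
  linarith

lemma Dom.sum {N : ℕ} {ι : Type} (s : Finset ι) (g : ι → (Fin N → ℝ) → ℝ)
    (hg : ∀ i, Dom (g i)) : Dom (fun z => ∑ i ∈ s, g i z) := by
  classical
  induction s using Finset.induction_on with
  | empty => simpa using Dom.const (N := N) 0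
  | insert a s ha ih =>
    simp only [Finset.sum_insert ha]
    exact (hg a).add ih

lemma Dom.int {N : ℕ} {g : (Fin N → ℝ) → ℝ} (hK : S_KDOM) (hg : Dom g) (hc : Continuous g) :
    Integrable g (gam N) := by
  obtain ⟨C, c, hC, hc', H⟩ := hg
  exact Integrable.mono' ((hK.1 N c).const_mul C) hc.aestronglyMeasurable
    (ae_of_all _ fun z => by rw [Real.norm_eq_abs]; exact H z)

/-! ## the exponential sums -/

variable {n N : ℕ}

lemma cont_ee (ξ : Fin n → Fin N → ℝ) (i : Fin n) : Continuous (ee ξ i) := by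
  unfold ee; fun_prop

lemma cont_WW (ξ : Fin n → Fin N → ℝ) : Continuous (WW ξ) := by
  unfold WW
  exact continuous_finsetSum _ fun i _ => cont_ee ξ i

lemma ee_pos (ξ : Fin n → Fin N → ℝ) (i : Fin n) (z : Fin N → ℝ) : 0 < ee ξ i z := by
  unfold ee; positivity

lemma WW_pos (hn : 0 < n) (ξ : Fin n → Fin N → ℝ) (z : Fin N → ℝ) : 0 < WW ξ z := by
  unfold WW
  have : Nonempty (Fin n) := ⟨⟨0, hn⟩⟩
  exact Finset.sum_pos (fun i _ => ee_pos ξ i z) Finset.univ_nonempty

lemma bound_xi (ξ : Fin n → Fin N → ℝ) : ∃ R : ℝ, ∀ i k, |ξ i k| ≤ R := by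
  refine ⟨∑ i, ∑ k, |ξ i k|, fun i k => ?_⟩
  calc |ξ i k| ≤ ∑ k, |ξ i k| := Finset.single_le_sum (f := fun k => |ξ i k|)
        (fun k _ => abs_nonneg _) (Finset.mem_univ k)
    _ ≤ _ := Finset.single_le_sum (f := fun i => ∑ k, |ξ i k|)
        (fun i _ => Finset.sum_nonneg fun k _ => abs_nonneg _) (Finset.mem_univ i)

lemma dom_of_le {g : (Fin N → ℝ) → ℝ} (C c : ℝ)
    (h : ∀ z, |g z| ≤ C * Real.exp (c * ∑ k, |z k|)) : Dom g := by
  refine ⟨|C|, |c|, abs_nonneg _, abs_nonneg _, fun z => (h z).trans ?_⟩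
  have hs : 0 ≤ ∑ k, |z k| := Finset.sum_nonneg fun k _ => abs_nonneg _
  have e1 : Real.exp (c * ∑ k, |z k|) ≤ Real.exp (|c| * ∑ k, |z k|) :=
    Real.exp_le_exp.2 (mul_le_mul_of_nonneg_right (le_abs_self c) hs)
  calc C * Real.exp (c * ∑ k, |z k|) ≤ |C| * Real.exp (c * ∑ k, |z k|) :=
        mul_le_mul_of_nonneg_right (le_abs_self C) (Real.exp_pos _).le
    _ ≤ _ := mul_le_mul_of_nonneg_left e1 (abs_nonneg _)

lemma dom_ee (hK : S_KDOM) (hn : 0 < n) (ξ : Fin n → Fin N → ℝ) (i : Fin n) : Dom (ee ξ i) := by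
  obtain ⟨R, hR⟩ := bound_xi ξ
  obtain ⟨C, c, h⟩ := hK.2 n N hn R 0
  exact dom_of_le C c fun z => by rw [abs_of_pos (ee_pos ξ i z)]; exact (h ξ hR z).2 i

lemma dom_pow (hK : S_KDOM) (hn : 0 < n) (ξ : Fin n → Fin N → ℝ) (m : ℝ) :
    Dom (fun z => WW ξ z ^ m) := by
  obtain ⟨R, hR⟩ := bound_xi ξ
  obtain ⟨C, c, h⟩ := hK.2 n N hn R m
  exact dom_of_le C c fun z => by
    rw [abs_of_nonneg (Real.rpow_nonneg (WW_pos hn ξ z).le m)]; exact (h ξ hR z).1

lemma dom_F (hK : S_KDOM) (hn : 0 < n) (ξ : Fin n → Fin N → ℝ) (F : ℝ → ℝ) (C m : ℝ)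
    (hC : 0 ≤ C) (hF : ∀ w, 0 < w → |F w| ≤ C * (w ^ m + w ^ (-m))) :
    Dom (fun z => F (WW ξ z)) := by
  obtain ⟨D, d, hD, hd, H⟩ := (Dom.const (N := N) C).mul
    ((dom_pow hK hn ξ m).add (dom_pow hK hn ξ (-m)))
  refine ⟨D, d, hD, hd, fun z => (hF _ (WW_pos hn ξ z)).trans ((le_abs_self _).trans (H z))⟩

/-- the line derivative -/
lemma ee_line (ξ : Fin n → Fin N → ℝ) (i : Fin n) (k : Fin N) (z : Fin N → ℝ) (t : ℝ) :
    HasDerivAt (fun t : ℝ => ee ξ i (z + t • (Pi.single k (1 : ℝ) : Fin N → ℝ)))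
      (ee ξ i (z + t • (Pi.single k (1 : ℝ) : Fin N → ℝ)) * ξ i k) t := by
  have e : ∀ t : ℝ, (∑ l, ξ i l * (z + t • (Pi.single k (1 : ℝ) : Fin N → ℝ)) l) =
      (∑ l, ξ i l * z l) + t * ξ i k := by
    intro t
    simp only [Pi.add_apply, Pi.smul_apply, smul_eq_mul, mul_add, Finset.sum_add_distrib,
      Pi.single_apply, mul_ite, mul_one, mul_zero, Finset.sum_ite_eq', Finset.mem_univ, if_true]
    ring
  unfold ee
  simp only [e]
  have h1 : HasDerivAt (fun t : ℝ => (∑ l, ξ i l * z l) + t * ξ i k - (∑ l, ξ i l ^ 2) / 2)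
      (ξ i k) t := by
    have := (((hasDerivAt_id t).mul_const (ξ i k)).const_add (∑ l, ξ i l * z l)).sub_const
      ((∑ l, ξ i l ^ 2) / 2)
    simpa using this
  exact h1.exp

lemma WW_line (ξ : Fin n → Fin N → ℝ) (k : Fin N) (z : Fin N → ℝ) (t : ℝ) :
    HasDerivAt (fun t : ℝ => WW ξ (z + t • (Pi.single k (1 : ℝ) : Fin N → ℝ)))
      (∑ j, ee ξ j (z + t • (Pi.single k (1 : ℝ) : Fin N → ℝ)) * ξ j k) t := by
  unfold WW
  exact HasDerivAt.fun_sum fun j _ => ee_line ξ j k z t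

theorem t_KST : S_KDOM → S_KST := by
  intro hK n N hn F F1 F2 hG ξ η
  obtain ⟨C, m, hC, hm, hbd⟩ := hG.bd
  have dF1 : Dom (fun z => F1 (WW ξ z)) := dom_F hK hn ξ F1 C m hC fun w hw => (hbd w hw).2.1
  have dF2 : Dom (fun z => F2 (WW ξ z)) := dom_F hK hn ξ F2 C m hC fun w hw => (hbd w hw).2.2
  have cF1 : Continuous (fun z => F1 (WW ξ z)) := by
    have h1 : ContinuousOn F1 (Ioi 0) := fun w hw => (hG.d2 w hw).continuousAt.continuousWithinAt
    exact h1.comp_continuous (cont_WW ξ) fun z => WW_pos hn ξ z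
  have cF2 : Continuous (fun z => F2 (WW ξ z)) :=
    hG.c2.comp_continuous (cont_WW ξ) fun z => WW_pos hn ξ z
  have dG : ∀ i, Dom (fun z => F1 (WW ξ z) * ee ξ i z) := fun i => dF1.mul (dom_ee hK hn ξ i)
  have cG : ∀ i, Continuous (fun z => F1 (WW ξ z) * ee ξ i z) := fun i => cF1.mul (cont_ee ξ i)
  have iG : ∀ i, Integrable (fun z => F1 (WW ξ z) * ee ξ i z) (gam N) := fun i =>
    (dG i).int hK (cG i)
  have iGz : ∀ i k, Integrable (fun z => (F1 (WW ξ z) * ee ξ i z) * z k) (gam N) := fun i k =>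
    ((dG i).mul (Dom.coord k)).int hK ((cG i).mul (continuous_apply k))
  have iI : ∀ i j, Integrable (fun z => F2 (WW ξ z) * (ee ξ i z * ee ξ j z)) (gam N) :=
    fun i j => (dF2.mul ((dom_ee hK hn ξ i).mul (dom_ee hK hn ξ j))).int hK
      (cF2.mul ((cont_ee ξ i).mul (cont_ee ξ j)))
  have st : ∀ i k, ∫ z, (F1 (WW ξ z) * ee ξ i z) * z k ∂gam N =
      (∑ j, ξ j k * ∫ z, F2 (WW ξ z) * (ee ξ i z * ee ξ j z) ∂gam N) +
        ξ i k * ∫ z, F1 (WW ξ z) * ee ξ i z ∂gam N := by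
    intro i k
    have iS : Integrable (fun z => ∑ j, ξ j k * (F2 (WW ξ z) * (ee ξ i z * ee ξ j z))) (gam N) :=
      integrable_finsetSum _ fun j _ => (iI i j).const_mul _
    have iT : Integrable (fun z => ξ i k * (F1 (WW ξ z) * ee ξ i z)) (gam N) :=
      (iG i).const_mul _
    rw [stein_n (fun z => F1 (WW ξ z) * ee ξ i z)
      (fun z => (∑ j, ξ j k * (F2 (WW ξ z) * (ee ξ i z * ee ξ j z))) +
        ξ i k * (F1 (WW ξ z) * ee ξ i z)) k ?_ (iGz i k) (iS.add iT) (iG i)]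
    · rw [integral_add iS iT, integral_finsetSum _ fun j _ => (iI i j).const_mul _,
        integral_const_mul]
      simp only [integral_const_mul]
    · intro z t
      have h1 := (hG.d2 _ (WW_pos hn ξ (z + t • (Pi.single k (1 : ℝ) : Fin N → ℝ))))
      have h2 := (h1.comp t (WW_line ξ k z t)).mul (ee_line ξ i k z t)
      refine h2.congr_deriv ?_
      simp only [Function.comp]
      rw [Finset.mul_sum, Finset.sum_mul]
      congr 1
      · exact Finset.sum_congr rfl fun j _ => by ring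
      · ring
  have lhs : ∀ z, F1 (WW ξ z) * ∑ i, ee ξ i z * (∑ k, η i k * z k - ∑ k, ξ i k * η i k) =
      ∑ i, ((∑ k, η i k * ((F1 (WW ξ z) * ee ξ i z) * z k)) -
        (∑ k, ξ i k * η i k) * (F1 (WW ξ z) * ee ξ i z)) := by
    intro z
    rw [Finset.mul_sum]
    refine Finset.sum_congr rfl fun i _ => ?_
    have : ∑ k, η i k * ((F1 (WW ξ z) * ee ξ i z) * z k) =
        (F1 (WW ξ z) * ee ξ i z) * ∑ k, η i k * z k := by
      rw [Finset.mul_sum]
      exact Finset.sum_congr rfl fun k _ => by ring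
    rw [this]
    ring
  have iA : ∀ i, Integrable (fun z => ∑ k, η i k * ((F1 (WW ξ z) * ee ξ i z) * z k)) (gam N) :=
    fun i => integrable_finsetSum _ fun k _ => (iGz i k).const_mul _
  have iB : ∀ i, Integrable (fun z => (∑ k, ξ i k * η i k) * (F1 (WW ξ z) * ee ξ i z)) (gam N) :=
    fun i => (iG i).const_mul _
  have iC : ∀ i, Integrable (fun z => (∑ k, η i k * ((F1 (WW ξ z) * ee ξ i z) * z k)) -
      (∑ k, ξ i k * η i k) * (F1 (WW ξ z) * ee ξ i z)) (gam N) := fun i => (iA i).sub (iB i)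
  simp only [lhs]
  rw [integral_finsetSum _ fun i _ => iC i]
  refine Finset.sum_congr rfl fun i _ => ?_
  rw [integral_sub (iA i) (iB i), integral_finsetSum _ fun k _ => (iGz i k).const_mul _]
  simp only [integral_const_mul, st]
  have e1 : ∑ k, η i k * ((∑ j, ξ j k * ∫ z, F2 (WW ξ z) * (ee ξ i z * ee ξ j z) ∂gam N) +
        ξ i k * ∫ z, F1 (WW ξ z) * ee ξ i z ∂gam N) =
      (∑ k, ∑ j, η i k * (ξ j k * ∫ z, F2 (WW ξ z) * (ee ξ i z * ee ξ j z) ∂gam N)) +
      (∑ k, ξ i k * η i k) * ∫ z, F1 (WW ξ z) * ee ξ i z ∂gam N := by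
    rw [Finset.sum_mul, ← Finset.sum_add_distrib]
    refine Finset.sum_congr rfl fun k _ => ?_
    rw [mul_add, Finset.mul_sum]
    ring
  rw [e1, add_sub_cancel_right, Finset.sum_comm]
  refine Finset.sum_congr rfl fun j _ => ?_
  rw [Finset.sum_mul]
  exact Finset.sum_congr rfl fun k _ => by ring

end Pool.Agent.H415.CG.KST
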